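import Mathlib

/-!
# MP_8e4c55_nt: block parallel addition on a binary alphabet

Let `β` be the real root of `X ^ 3 - X + 1` (so `β = -1.3247...`, the negative of the smallest Pisot
number). We prove that addition on the alphabet `{0, 1}` is `18`-block parallel in base `β`, by a
`3`-local function. Hence the answer to the question is yes.

The carries are elements of a finite set of `96` elements of `ℤ[β]`: the carry depends on the class
(one of `6`) of a digit and on the class (one of `16`) of its left neighbour. That such classes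
exist is a statement about finite subsets of `ℤ[β] ≅ ℤ ^ 3` which the kernel checks with bit masks.
-/

set_option autoImplicit false

namespace Pool.Agent.Results.MP_8e4c55_nt.NegativePlastic

open scoped Pointwise

/-- `φ : D ^ ℤ → E ^ ℤ` is `p`-local: `φ(u)_j = Φ(u_{j+t}, ..., u_{j-r})`, `p = r + t + 1` -/
def IsLocal {D E : Set ℂ} (p : ℕ) (φ : (ℤ → D) → (ℤ → E)) : Prop :=
  ∃ r t : ℕ, p = r + t + 1 ∧ ∃ Φ : (Fin p → D) → E, ∀ (u : ℤ → D) (j : ℤ),
    φ u j = Φ (fun i => u (j + t - (i : ℕ)))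

/-- `φ` is a digit set conversion in base `β` from `D` to `E` -/
def IsConversion {D E : Set ℂ} (β : ℂ) (φ : (ℤ → D) → (ℤ → E)) : Prop :=
  ∀ u : ℤ → D, {j | (u j : ℂ) ≠ 0}.Finite → {j | (φ u j : ℂ) ≠ 0}.Finite ∧
    ∑ᶠ j, (φ u j : ℂ) * β ^ j = ∑ᶠ j, (u j : ℂ) * β ^ j

/-- the digit set conversion from `D` to `E` in base `β` is computable in parallel, by a `p`-local
function -/
def Parallel (p : ℕ) (β : ℂ) (D E : Set ℂ) : Prop :=
  ∃ φ : (ℤ → D) → (ℤ → E), IsConversion β φ ∧ IsLocal p φ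

/-- the set `A_(k)` -/
def block (β : ℂ) (A : Set ℂ) (k : ℕ) : Set ℂ :=
  {z | ∃ a : Fin k → ℂ, (∀ i, a i ∈ A) ∧ z = ∑ i, a i * β ^ (i : ℕ)}

/-- addition on `A` is `k`-block parallel in base `β` -/
def BlockParallel (k : ℕ) (β : ℂ) (A : Set ℂ) : Prop :=
  ∃ p : ℕ, Parallel p (β ^ k) (block β A k + block β A k) (block β A k)

/-! ### Conversions from carries -/

theorem of_carry (γ : ℂ) (hγ : γ ≠ 0) (D E : Set ℂ) (q : D → D → ℂ)
    (h : ∀ a b c : D, (b : ℂ) + q a b - γ * q b c ∈ E)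
    (h0 : ∀ a b : D, (a : ℂ) = 0 → (b : ℂ) = 0 → q a b = 0) : Parallel 3 γ D E := by
  refine ⟨fun u j => ⟨(u j : ℂ) + q (u (j - 1)) (u j) - γ * q (u j) (u (j + 1)), h _ _ _⟩, ?_,
    1, 1, rfl, fun w => ⟨(w 1 : ℂ) + q (w 2) (w 1) - γ * q (w 1) (w 0), h _ _ _⟩, ?_⟩
  · intro u hu
    obtain ⟨S, hS⟩ : ∃ S : Set ℤ, S = {j | (u j : ℂ) ≠ 0} := ⟨_, rfl⟩
    rw [← hS] at hu
    have hS' : ∀ j, j ∉ S → (u j : ℂ) = 0 := by
      intro j hj
      rw [hS] at hj
      simpa using hj
    obtain ⟨Q, hQ⟩ : ∃ Q : ℤ → ℂ, ∀ j, Q j = q (u (j - 1)) (u j) := ⟨_, fun _ => rfl⟩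
    have hQ0 : ∀ j, j ∉ S → j - 1 ∉ S → Q j = 0 := by
      intro j h1 h2
      rw [hQ]
      exact h0 _ _ (hS' _ h2) (hS' _ h1)
    have hT : (S ∪ (fun j => j + 1) '' S).Finite := hu.union (hu.image _)
    have hT' : (S ∪ (fun j => j - 1) '' S).Finite := hu.union (hu.image _)
    have hQT : ∀ j, j ∉ S ∪ (fun j => j + 1) '' S → Q j = 0 := by
      intro j hj
      rw [Set.mem_union, not_or] at hj
      refine hQ0 j hj.1 fun h1 => hj.2 ⟨j - 1, h1, by ring⟩
    have hQT' : ∀ j, j ∉ S ∪ (fun j => j - 1) '' S → Q (j + 1) = 0 := by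
      intro j hj
      rw [Set.mem_union, not_or] at hj
      refine hQ0 (j + 1) (fun h1 => hj.2 ⟨j + 1, h1, by ring⟩) ?_
      rw [add_sub_cancel_right]
      exact hj.1
    have f1 : (Function.support fun j => (u j : ℂ) * γ ^ j).Finite := by
      refine hu.subset fun j hj => ?_
      by_contra h1
      exact hj (by simp only [hS' j h1, zero_mul])
    have f2 : (Function.support fun j => Q j * γ ^ j).Finite := by
      refine hT.subset fun j hj => ?_
      by_contra h1
      exact hj (by simp only [hQT j h1, zero_mul])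
    have f3 : (Function.support fun j => Q (j + 1) * γ ^ (j + 1)).Finite := by
      refine hT'.subset fun j hj => ?_
      by_contra h1
      exact hj (by simp only [hQT' j h1, zero_mul])
    refine ⟨?_, ?_⟩
    · refine (hT.union hT').subset fun j hj => ?_
      by_contra h1
      rw [Set.mem_union, not_or] at h1
      apply hj
      have h2 := hQT j h1.1
      have h3 := hQT' j h1.2
      rw [hQ] at h2 h3
      rw [add_sub_cancel_right] at h3
      have h4 : (u j : ℂ) = 0 := hS' j fun h => h1.1 (Set.mem_union_left _ h)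
      simp only [h2, h3, h4]
      ring
    · have e1 : ∀ j : ℤ, ((u j : ℂ) + q (u (j - 1)) (u j) - γ * q (u j) (u (j + 1))) * γ ^ j =
          ((u j : ℂ) * γ ^ j + Q j * γ ^ j) - Q (j + 1) * γ ^ (j + 1) := by
        intro j
        rw [hQ, hQ, add_sub_cancel_right, zpow_add_one₀ hγ]
        ring
      have e2 : ∑ᶠ j : ℤ, Q (j + 1) * γ ^ (j + 1) = ∑ᶠ j : ℤ, Q j * γ ^ j :=
        finsum_comp_equiv (Equiv.addRight (1 : ℤ)) (f := fun j => Q j * γ ^ j)
      calc ∑ᶠ j : ℤ, ((u j : ℂ) + q (u (j - 1)) (u j) - γ * q (u j) (u (j + 1))) * γ ^ j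
          = ∑ᶠ j : ℤ, (((u j : ℂ) * γ ^ j + Q j * γ ^ j) - Q (j + 1) * γ ^ (j + 1)) :=
            finsum_congr e1
        _ = ∑ᶠ j : ℤ, ((u j : ℂ) * γ ^ j + Q j * γ ^ j) - ∑ᶠ j : ℤ, Q (j + 1) * γ ^ (j + 1) := by
            apply finsum_sub_distrib _ f3
            exact (f1.union f2).subset (Function.support_add _ _)
        _ = ∑ᶠ j : ℤ, (u j : ℂ) * γ ^ j + ∑ᶠ j : ℤ, Q j * γ ^ j -
              ∑ᶠ j : ℤ, Q (j + 1) * γ ^ (j + 1) := by
            rw [finsum_add_distrib f1 f2]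
        _ = ∑ᶠ j : ℤ, (u j : ℂ) * γ ^ j := by rw [e2]; ring
  · intro u j
    apply Subtype.ext
    have h1 : j + ((1 : ℕ) : ℤ) - (((1 : Fin 3) : ℕ) : ℤ) = j := by simp
    have h2 : j + ((1 : ℕ) : ℤ) - (((2 : Fin 3) : ℕ) : ℤ) = j - 1 := by simp; ring
    have h3 : j + ((1 : ℕ) : ℤ) - (((0 : Fin 3) : ℕ) : ℤ) = j + 1 := by simp
    simp only [h1, h2, h3]

/-! ### Sums of powers in `ℤ ^ 3` and bit masks -/

/-- coordinates with respect to `β ^ 10, β ^ 11, β ^ 12` -/
abbrev V := ℤ × ℤ × ℤ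

/-- multiplication by `β`, where `β ^ 3 = β - 1` -/
def mulb (v : V) : V := (-v.2.2, v.1 + v.2.2, v.2.1)

/-- multiplication by `β ^ n` -/
def mulp : ℕ → V → V
  | 0, v => v
  | n + 1, v => mulb (mulp n v)

/-- the coordinates of `β ^ n` -/
def P (n : ℕ) : V := mulp n (4, -1, -3)

/-- the code of a vector -/
def enc (v : V) : ℤ := v.1 + 100 * v.2.1 + 10000 * v.2.2

/-- the size of the code of `β ^ n` -/
def sz (n : ℕ) : ℕ := (enc (P n)).natAbs

/-- the negative part of the code of `β ^ n` -/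
def ng (n : ℕ) : ℕ := (-enc (P n)).toNat

/-- the offset -/
def off : ℕ → ℕ
  | 0 => 0
  | n + 1 => off n + ng n

def maskB : ℕ → ℕ
  | 0 => 1
  | n + 1 => Nat.lor (maskB n) (Nat.shiftLeft (maskB n) (sz n))

def maskD : ℕ → ℕ
  | 0 => 1
  | n + 1 => Nat.lor (maskD n) (Nat.lor (Nat.shiftLeft (maskD n) (sz n))
      (Nat.shiftLeft (maskD n) (2 * sz n)))

/-- sums of the first `n` powers with coefficients `0, ..., d` -/
def S (d n : ℕ) : Set V := {v | ∃ a : ℕ → ℕ, (∀ i, a i ≤ d) ∧ v = ∑ i ∈ Finset.range n, a i • P i}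

lemma enc_add (u v : V) : enc (u + v) = enc u + enc v := by
  simp only [enc, Prod.fst_add, Prod.snd_add]
  ring

lemma enc_sub (u v : V) : enc (u - v) = enc u - enc v := by
  simp only [enc, Prod.fst_sub, Prod.snd_sub]
  ring

lemma enc_nsmul (a : ℕ) (v : V) : enc (a • v) = a * enc v := by
  have h1 : (a • v).1 = a * v.1 := by rw [Prod.smul_fst, nsmul_eq_mul]
  have h2 : (a • v).2.1 = a * v.2.1 := by rw [Prod.smul_snd, Prod.smul_fst, nsmul_eq_mul]
  have h3 : (a • v).2.2 = a * v.2.2 := by rw [Prod.smul_snd, Prod.smul_snd, nsmul_eq_mul]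
  rw [enc, enc, h1, h2, h3]
  ring

lemma sz_ng (n : ℕ) : (enc (P n) = sz n ∧ ng n = 0) ∨ (enc (P n) = -sz n ∧ ng n = sz n) := by
  unfold sz ng
  omega

lemma S_succ (d n : ℕ) (v : V) : v ∈ S d (n + 1) ↔ ∃ a ≤ d, ∃ w ∈ S d n, v = w + a • P n := by
  constructor
  · rintro ⟨a, ha, rfl⟩
    exact ⟨a n, ha n, _, ⟨a, ha, rfl⟩, by rw [Finset.sum_range_succ]⟩
  · rintro ⟨c, hc, w, ⟨a, ha, rfl⟩, rfl⟩
    refine ⟨Function.update a n c, fun i => ?_, ?_⟩
    · by_cases hi : i = n
      · rw [hi, Function.update_self]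
        exact hc
      · rw [Function.update_of_ne hi]
        exact ha i
    · rw [Finset.sum_range_succ, Function.update_self]
      congr 1
      refine Finset.sum_congr rfl fun i hi => ?_
      rw [Finset.mem_range] at hi
      rw [Function.update_of_ne (by omega)]

/-- the mask of the sums with coefficients `0, 1`: soundness -/
lemma maskB_sound (n t : ℕ) (h : (maskB n).testBit t = true) :
    ∃ v ∈ S 1 n, enc v + off n = t := by
  induction n generalizing t with
  | zero =>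
    have h1 : t = 0 := by
      by_contra h2
      have h3 : (1 : ℕ).testBit t = true := h
      rcases t with _ | t
      · exact h2 rfl
      · simp [Nat.testBit_succ] at h3
    exact ⟨0, ⟨fun _ => 0, fun _ => Nat.zero_le _, by simp⟩, by simp [enc, off, h1]⟩
  | succ n ih =>
    have h1 : ((maskB n) ||| ((maskB n) <<< (sz n))).testBit t = true := h
    rw [Nat.testBit_or, Nat.testBit_shiftLeft, Bool.or_eq_true, Bool.and_eq_true,
      decide_eq_true_eq] at h1
    rcases h1 with h1 | ⟨h1, h2⟩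
    · obtain ⟨w, hw, he⟩ := ih t h1
      rcases sz_ng n with ⟨h3, h4⟩ | ⟨h3, h4⟩
      · refine ⟨w, (S_succ 1 n w).2 ⟨0, by norm_num, w, hw, by simp⟩, ?_⟩
        simp only [off, h4]
        push_cast
        linarith
      · refine ⟨w + 1 • P n, (S_succ 1 n _).2 ⟨1, le_refl _, w, hw, rfl⟩, ?_⟩
        rw [enc_add, enc_nsmul]
        simp only [off, h4]
        push_cast
        linarith
    · obtain ⟨w, hw, he⟩ := ih _ h2
      rw [Nat.cast_sub h1] at he
      rcases sz_ng n with ⟨h3, h4⟩ | ⟨h3, h4⟩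
      · refine ⟨w + 1 • P n, (S_succ 1 n _).2 ⟨1, le_refl _, w, hw, rfl⟩, ?_⟩
        rw [enc_add, enc_nsmul]
        simp only [off, h4]
        push_cast
        linarith
      · refine ⟨w, (S_succ 1 n w).2 ⟨0, by norm_num, w, hw, by simp⟩, ?_⟩
        simp only [off, h4]
        push_cast
        linarith

/-- the mask of the sums with coefficients `0, 1, 2`: completeness -/
lemma maskD_complete (n : ℕ) (v : V) (h : v ∈ S 2 n) :
    ∃ t : ℕ, enc v + 2 * off n = t ∧ (maskD n).testBit t = true := by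
  induction n generalizing v with
  | zero =>
    obtain ⟨a, -, rfl⟩ := h
    exact ⟨0, by simp [enc, off], rfl⟩
  | succ n ih =>
    obtain ⟨a, ha, w, hw, rfl⟩ := (S_succ 2 n v).1 h
    obtain ⟨t, ht, htb⟩ := ih w hw
    obtain ⟨c, hc, hct⟩ : ∃ c : ℕ, c ≤ 2 ∧
        enc (w + a • P n) + 2 * (off (n + 1) : ℕ) = ((t + c * sz n : ℕ) : ℤ) := by
      rcases sz_ng n with ⟨h3, h4⟩ | ⟨h3, h4⟩
      · refine ⟨a, ha, ?_⟩
        rw [enc_add, enc_nsmul, h3]
        simp only [off, h4]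
        push_cast
        linarith
      · refine ⟨2 - a, by omega, ?_⟩
        rw [enc_add, enc_nsmul, h3]
        simp only [off, h4]
        rw [Nat.cast_add t, Nat.cast_mul (2 - a), Nat.cast_sub ha]
        push_cast
        linarith
    refine ⟨t + c * sz n, hct, ?_⟩
    have h1 : maskD (n + 1) = (maskD n) ||| (((maskD n) <<< (sz n)) |||
      ((maskD n) <<< (2 * sz n))) := rfl
    rw [h1, Nat.testBit_or, Nat.testBit_or, Nat.testBit_shiftLeft, Nat.testBit_shiftLeft]
    have hc3 : c = 0 ∨ c = 1 ∨ c = 2 := by omega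
    rcases hc3 with rfl | rfl | rfl
    · simp [htb]
    · simp [htb]
    · simp [htb]

/-! ### The carries -/

/-- the table of the carries -/
def tab : List (List V) :=
  [[(-1, 2, 2), (-12, -1, 6), (-5, 3, 5), (2, -5, -5), (9, -1, -6), (6, 6, 1),
     (-19, 3, 13), (-2, -12, -8), (-9, -8, -1), (-15, 6, 13), (9, -9, -12), (5, -12, -12),
     (13, 2, -6), (-4, 9, 9), (20, -2, -13), (-16, -4, 6)],
   [(3, 1, -1), (-8, -2, 3), (-11, 5, 10), (2, -5, -5), (13, -2, -9), (7, 8, 2),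
     (-15, 2, 10), (-1, -10, -7), (-12, -9, 0), (-15, 6, 13), (10, -7, -11), (2, -9, -8),
     (10, 1, -5), (-4, 9, 9), (13, -2, -9), (-15, -6, 4)],
   [(3, 1, -1), (-8, -2, 3), (-11, 5, 10), (-1, -6, -4), (10, -3, -8), (7, 4, -1),
     (-18, 1, 11), (-1, -10, -7), (-12, -9, 0), (-14, 8, 14), (10, -7, -11), (6, -10, -11),
     (14, 0, -8), (-3, 7, 7), (14, -4, -11), (-18, -3, 8)],
   [(0, 0, 0), (-11, -3, 4), (-7, 4, 7), (0, -4, -3), (7, -4, -7), (8, 6, 0),
     (-14, 0, 8), (-1, -10, -7), (-11, -7, 1), (-17, 7, 15), (10, -7, -11), (10, -11, -14),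
     (11, 3, -4), (-3, 7, 7), (14, -4, -11), (-15, -6, 4)],
   [(1, 2, 1), (-10, -1, 5), (-3, 3, 4), (0, -4, -3), (11, -5, -10), (5, 5, 1),
     (-17, -1, 9), (0, -12, -9), (-11, -7, 1), (-17, 7, 15), (14, -8, -14), (3, -11, -10),
     (8, 2, -3), (-2, 9, 8), (15, -2, -10), (-14, -4, 5)],
   [(1, 2, 1), (-6, -2, 2), (-9, 5, 9), (1, -6, -5), (12, -3, -9), (5, 5, 1),
     (-17, -1, 9), (-3, -13, -8), (-10, -9, -1), (-13, 6, 12), (11, -9, -13), (7, -12, -13),
     (12, 1, -6), (-2, 9, 8), (19, -3, -13), (-17, -5, 6)]]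

/-- the carry for the classes `i` and `j` -/
def H (i j : ℕ) : V := (tab.getD i []).getD j (0, 0, 0)

/-- the product of the carry and the `18`-th power of `β` -/
def G (i j : ℕ) : V := mulp 18 (H i j)

def mB : ℕ := Nat.shiftLeft (maskB 18) 399994

/-- intersection of shifts along a row -/
def rowI (i : ℕ) : ℕ → ℕ
  | 0 => 2 ^ 1000000 - 1
  | n + 1 => Nat.land (rowI i n) (Nat.shiftRight mB (100000 - enc (G i n)).toNat)

/-- intersection of shifts along a column -/
def colI (i j : ℕ) : ℕ → ℕ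
  | 0 => 2 ^ 1000000 - 1
  | n + 1 => Nat.land (colI i j n) (Nat.shiftRight (rowI i 16) (200000 + enc (H n j)).toNat)

/-- union over the columns -/
def unJ (i : ℕ) : ℕ → ℕ
  | 0 => 0
  | n + 1 => Nat.lor (unJ i n) (colI i n 6)

/-- union over the rows -/
def unI : ℕ → ℕ
  | 0 => 0
  | n + 1 => Nat.lor (unI n) (unJ n 16)

theorem check_true : Nat.land (maskD 18) (unI 6) = maskD 18 := by decide +kernel

theorem check_zero : (colI 3 0 6).testBit 199988 = true := by decide +kernel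

theorem off_eq : off 18 = 99994 := by decide +kernel

lemma bound_G : ∀ i < 6, ∀ j < 16, enc (G i j) ≤ 100000 ∧ |(G i j).1| ≤ 6 ∧
    |(G i j).2.1| ≤ 10 := by decide +kernel

lemma bound_H : ∀ i < 6, ∀ j < 16, -200000 ≤ enc (H i j) ∧ |(H i j).1| ≤ 20 ∧
    |(H i j).2.1| ≤ 13 := by decide +kernel

lemma sum_P : ∑ i ∈ Finset.range 18, |(P i).1| = 21 ∧ ∑ i ∈ Finset.range 18, |(P i).2.1| = 18 := by
  decide +kernel

lemma row_sound (i t n : ℕ) (h : (rowI i n).testBit t = true) : ∀ j < n,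
    mB.testBit ((100000 - enc (G i j)).toNat + t) = true := by
  induction n with
  | zero => intro j hj; omega
  | succ n ih =>
    have h1 : ((rowI i n) &&& (mB >>> (100000 - enc (G i n)).toNat)).testBit t = true := h
    rw [Nat.testBit_and, Nat.testBit_shiftRight, Bool.and_eq_true] at h1
    intro j hj
    rcases Nat.lt_succ_iff_lt_or_eq.1 hj with h2 | h2
    · exact ih h1.1 j h2
    · rw [h2]
      exact h1.2

lemma col_sound (i j t n : ℕ) (h : (colI i j n).testBit t = true) : ∀ l < n,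
    (rowI i 16).testBit ((200000 + enc (H l j)).toNat + t) = true := by
  induction n with
  | zero => intro l hl; omega
  | succ n ih =>
    have h1 : ((colI i j n) &&& ((rowI i 16) >>> (200000 + enc (H n j)).toNat)).testBit t = true :=
      h
    rw [Nat.testBit_and, Nat.testBit_shiftRight, Bool.and_eq_true] at h1
    intro l hl
    rcases Nat.lt_succ_iff_lt_or_eq.1 hl with h2 | h2
    · exact ih h1.1 l h2
    · rw [h2]
      exact h1.2

lemma unJ_sound (i t n : ℕ) (h : (unJ i n).testBit t = true) : ∃ j < n,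
    (colI i j 6).testBit t = true := by
  induction n with
  | zero =>
    have h1 : (0 : ℕ).testBit t = true := h
    simp at h1
  | succ n ih =>
    have h1 : ((unJ i n) ||| (colI i n 6)).testBit t = true := h
    rw [Nat.testBit_or, Bool.or_eq_true] at h1
    rcases h1 with h1 | h1
    · obtain ⟨j, hj, h2⟩ := ih h1
      exact ⟨j, by omega, h2⟩
    · exact ⟨n, by omega, h1⟩

lemma unI_sound (t n : ℕ) (h : (unI n).testBit t = true) : ∃ i < n, ∃ j < 16,
    (colI i j 6).testBit t = true := by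
  induction n with
  | zero =>
    have h1 : (0 : ℕ).testBit t = true := h
    simp at h1
  | succ n ih =>
    have h1 : ((unI n) ||| (unJ n 16)).testBit t = true := h
    rw [Nat.testBit_or, Bool.or_eq_true] at h1
    rcases h1 with h1 | h1
    · obtain ⟨i, hi, h2⟩ := ih h1
      exact ⟨i, by omega, h2⟩
    · exact ⟨n, by omega, unJ_sound n t 16 h1⟩

lemma S_bound (d n : ℕ) (v : V) (h : v ∈ S d n) :
    |v.1| ≤ d * ∑ i ∈ Finset.range n, |(P i).1| ∧
      |v.2.1| ≤ d * ∑ i ∈ Finset.range n, |(P i).2.1| := by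
  induction n generalizing v with
  | zero =>
    obtain ⟨a, -, rfl⟩ := h
    simp
  | succ n ih =>
    obtain ⟨a, ha, w, hw, rfl⟩ := (S_succ d n v).1 h
    obtain ⟨h1, h2⟩ := ih w hw
    have ha' : (a : ℤ) ≤ d := by exact_mod_cast ha
    have e1 : (w + a • P n).1 = w.1 + a * (P n).1 := by
      rw [Prod.fst_add, Prod.smul_fst, nsmul_eq_mul]
    have e2 : (w + a • P n).2.1 = w.2.1 + a * (P n).2.1 := by
      rw [Prod.snd_add, Prod.fst_add, Prod.smul_snd, Prod.smul_fst, nsmul_eq_mul]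
    rw [Finset.sum_range_succ, Finset.sum_range_succ, mul_add, mul_add, e1, e2]
    have h3 : ∀ x : ℤ, |(a : ℤ) * x| ≤ d * |x| := by
      intro x
      rw [abs_mul, abs_of_nonneg (by positivity : (0 : ℤ) ≤ a)]
      exact mul_le_mul_of_nonneg_right ha' (abs_nonneg _)
    exact ⟨(abs_add_le _ _).trans (add_le_add h1 (h3 _)),
      (abs_add_le _ _).trans (add_le_add h2 (h3 _))⟩

/-- a digit `b` in the classes `i`, `j` -/
def Good (i j : ℕ) (b : V) : Prop := ∀ l < 6, ∀ m < 16, b + H l j - G i m ∈ S 1 18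

lemma good_of (i j t : ℕ) (hi : i < 6) (hj : j < 16) (b : V) (hb : b ∈ S 2 18)
    (ht : enc b + 2 * 99994 = t) (h : (colI i j 6).testBit t = true) : Good i j b := by
  intro l hl m hm
  have h1 := row_sound i _ 16 (col_sound i j t 6 h l hl) m hm
  have h2 : ((maskB 18) <<< 399994).testBit ((100000 - enc (G i m)).toNat +
      ((200000 + enc (H l j)).toNat + t)) = true := h1
  rw [Nat.testBit_shiftLeft, Bool.and_eq_true, decide_eq_true_eq] at h2
  obtain ⟨h3, h4⟩ := h2
  obtain ⟨w, hw, he⟩ := maskB_sound 18 _ h4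
  obtain ⟨g1, g2, g3⟩ := bound_G i hi m hm
  obtain ⟨k1, k2, k3⟩ := bound_H l hl j hj
  rw [off_eq, Nat.cast_sub h3] at he
  push_cast at he
  rw [Int.toNat_of_nonneg (by omega), Int.toNat_of_nonneg (by omega), ← ht] at he
  have h5 : enc w = enc (b + H l j - G i m) := by
    rw [enc_sub, enc_add]
    linarith
  obtain ⟨b1, b2⟩ := S_bound 2 18 b hb
  obtain ⟨w1, w2⟩ := S_bound 1 18 w hw
  rw [sum_P.1] at b1 w1
  rw [sum_P.2] at b2 w2
  have h6 : w = b + H l j - G i m := by
    have c1 : (b + H l j - G i m).1 = b.1 + (H l j).1 - (G i m).1 := rfl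
    have c2 : (b + H l j - G i m).2.1 = b.2.1 + (H l j).2.1 - (G i m).2.1 := rfl
    have c3 : (b + H l j - G i m).2.2 = b.2.2 + (H l j).2.2 - (G i m).2.2 := rfl
    rw [enc, enc, c1, c2, c3] at h5
    rw [abs_le] at g2 g3 k2 k3 b1 b2 w1 w2
    push_cast at b1 b2 w1 w2
    have d1 : w.1 = b.1 + (H l j).1 - (G i m).1 := by omega
    have d2 : w.2.1 = b.2.1 + (H l j).2.1 - (G i m).2.1 := by omega
    have d3 : w.2.2 = b.2.2 + (H l j).2.2 - (G i m).2.2 := by omega
    exact Prod.ext (d1.trans c1.symm) (Prod.ext (d2.trans c2.symm) (d3.trans c3.symm))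
  rw [← h6]
  exact hw

lemma land_bit (x y z t : ℕ) (h : Nat.land x y = z) (hz : z.testBit t = true) :
    y.testBit t = true := by
  have h1 : (x &&& y).testBit t = true := by
    rw [← h] at hz
    exact hz
  rw [Nat.testBit_and, Bool.and_eq_true] at h1
  exact h1.2

lemma exists_class (b : V) (hb : b ∈ S 2 18) : ∃ i < 6, ∃ j < 16, Good i j b := by
  obtain ⟨t, ht, htb⟩ := maskD_complete 18 b hb
  obtain ⟨i, hi, j, hj, h3⟩ := unI_sound t 6
    (land_bit (maskD 18) (unI 6) (maskD 18) t check_true htb)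
  refine ⟨i, hi, j, hj, good_of i j t hi hj b hb ?_ h3⟩
  rw [← ht, off_eq]
  rfl

lemma zero_mem (d n : ℕ) : (0 : V) ∈ S d n := ⟨fun _ => 0, fun _ => Nat.zero_le _, by simp⟩

lemma enc_zero : enc (0 : V) + 2 * 99994 = ((199988 : ℕ) : ℤ) := by decide

lemma good_zero : Good 3 0 0 := by
  have h := good_of 3 0 199988 (by norm_num) (by norm_num) 0 (zero_mem 2 18) enc_zero
  exact h check_zero

lemma H_zero : H 3 0 = 0 := by decide +kernel

/-- the classes of a digit -/
theorem exists_classes : ∃ c e : V → ℕ, H (c 0) (e 0) = 0 ∧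
    ∀ b ∈ S 2 18, c b < 6 ∧ e b < 16 ∧ Good (c b) (e b) b := by
  classical
  have h : ∀ b : V, ∃ p : ℕ × ℕ, (b = 0 → p = (3, 0)) ∧
      (b ∈ S 2 18 → p.1 < 6 ∧ p.2 < 16 ∧ Good p.1 p.2 b) := by
    intro b
    by_cases h0 : b = 0
    · exact ⟨(3, 0), fun _ => rfl, fun _ => ⟨by norm_num, by norm_num, by rw [h0]; exact good_zero⟩⟩
    · by_cases hb : b ∈ S 2 18
      · obtain ⟨i, hi, j, hj, hg⟩ := exists_class b hb
        exact ⟨(i, j), fun h => absurd h h0, fun _ => ⟨hi, hj, hg⟩⟩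
      · exact ⟨(0, 0), fun h => absurd h h0, fun h => absurd h hb⟩
  choose p hp0 hp using h
  refine ⟨fun b => (p b).1, fun b => (p b).2, ?_, fun b hb => hp b hb⟩
  simp only [hp0 0 rfl, H_zero]

/-! ### Values -/

/-- the value of a vector with respect to `1, β, β ^ 2` -/
def lin (β : ℂ) (v : V) : ℂ := v.1 + v.2.1 * β + v.2.2 * β ^ 2

/-- the value of a vector -/
def val (β : ℂ) (v : V) : ℂ := β ^ 10 * lin β v

lemma lin_mulp (β : ℂ) (hβ : β ^ 3 = β - 1) (n : ℕ) (v : V) :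
    lin β (mulp n v) = β ^ n * lin β v := by
  induction n with
  | zero => simp [mulp]
  | succ n ih =>
    have h1 : lin β (mulb (mulp n v)) = β * lin β (mulp n v) := by
      simp only [lin, mulb]
      push_cast
      linear_combination (-((mulp n v).2.2 : ℂ)) * hβ
    rw [mulp, h1, ih]
    ring

lemma val_add (β : ℂ) (u v : V) : val β (u + v) = val β u + val β v := by
  simp only [val, lin, Prod.fst_add, Prod.snd_add]
  push_cast
  ring

lemma val_sub (β : ℂ) (u v : V) : val β (u - v) = val β u - val β v := by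
  simp only [val, lin, Prod.fst_sub, Prod.snd_sub]
  push_cast
  ring

lemma val_zero (β : ℂ) : val β 0 = 0 := by
  simp [val, lin]

lemma val_nsmul (β : ℂ) (a : ℕ) (v : V) : val β (a • v) = a * val β v := by
  induction a with
  | zero => rw [zero_smul, val_zero]; simp
  | succ a ih => rw [succ_nsmul, val_add, ih]; push_cast; ring

lemma val_P (β : ℂ) (hβ : β ^ 3 = β - 1) (n : ℕ) : val β (P n) = β ^ n := by
  have h1 : mulp 10 (4, -1, -3) = ((1, 0, 0) : V) := by decide +kernel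
  have h2 := lin_mulp β hβ 10 (4, -1, -3)
  rw [h1] at h2
  rw [val, P, lin_mulp β hβ]
  calc β ^ 10 * (β ^ n * lin β (4, -1, -3)) = β ^ n * (β ^ 10 * lin β (4, -1, -3)) := by ring
    _ = β ^ n := by rw [← h2]; simp [lin]

lemma val_sum (β : ℂ) (hβ : β ^ 3 = β - 1) (n : ℕ) (a : ℕ → ℕ) :
    val β (∑ i ∈ Finset.range n, a i • P i) = ∑ i : Fin n, (a i : ℂ) * β ^ (i : ℕ) := by
  induction n with
  | zero => simp [val_zero]
  | succ n ih =>
    rw [Finset.sum_range_succ, val_add, ih, Fin.sum_univ_castSucc, val_nsmul, val_P β hβ]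
    rfl

lemma block_of (β : ℂ) (hβ : β ^ 3 = β - 1) (n : ℕ) (v : V) (hv : v ∈ S 1 n) :
    val β v ∈ block β {0, 1} n := by
  obtain ⟨a, ha, rfl⟩ := hv
  refine ⟨fun i => a i, fun i => ?_, val_sum β hβ n a⟩
  have h1 : a i = 0 ∨ a i = 1 := by have := ha i; omega
  rcases h1 with h1 | h1 <;> simp [h1]

lemma of_block (β : ℂ) (hβ : β ^ 3 = β - 1) (n : ℕ) (z : ℂ) (hz : z ∈ block β {0, 1} n) :
    ∃ a : ℕ → ℕ, (∀ i, a i ≤ 1) ∧ val β (∑ i ∈ Finset.range n, a i • P i) = z := by
  classical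
  obtain ⟨a, ha, rfl⟩ := hz
  refine ⟨fun i => if h : i < n then (if a ⟨i, h⟩ = 0 then 0 else 1) else 0, fun i => ?_, ?_⟩
  · dsimp only
    split_ifs <;> norm_num
  · rw [val_sum β hβ]
    refine Finset.sum_congr rfl fun i _ => ?_
    congr 1
    have h1 : (i : ℕ) < n := i.2
    simp only [h1, dite_true, Fin.eta]
    rcases ha i with h2 | h2
    · rw [h2]
      simp
    · rw [Set.mem_singleton_iff] at h2
      rw [h2]
      simp

lemma of_block_add (β : ℂ) (hβ : β ^ 3 = β - 1) (n : ℕ) (z : ℂ)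
    (hz : z ∈ block β {0, 1} n + block β {0, 1} n) : ∃ v ∈ S 2 n, val β v = z := by
  obtain ⟨x, hx, y, hy, rfl⟩ := hz
  obtain ⟨a, ha, hav⟩ := of_block β hβ n x hx
  obtain ⟨b, hb, hbv⟩ := of_block β hβ n y hy
  refine ⟨∑ i ∈ Finset.range n, (a i + b i) • P i, ⟨fun i => a i + b i, fun i => ?_, rfl⟩, ?_⟩
  · have h1 := ha i
    have h2 := hb i
    show a i + b i ≤ 2
    omega
  · simp only [add_smul]
    rw [Finset.sum_add_distrib, val_add, hav, hbv]

theorem parallel (β : ℂ) (hβ : β ^ 3 = β - 1) :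
    Parallel 3 (β ^ 18) (block β {0, 1} 18 + block β {0, 1} 18) (block β {0, 1} 18) := by
  classical
  have hβ0 : β ≠ 0 := by
    intro h
    rw [h] at hβ
    norm_num at hβ
  obtain ⟨c, e, hce, hc⟩ := exists_classes
  have hvec : ∀ z : ↥(block β {0, 1} 18 + block β {0, 1} 18), ∃ v ∈ S 2 18, val β v = (z : ℂ) ∧
      ((z : ℂ) = 0 → v = 0) := by
    intro z
    by_cases h0 : (z : ℂ) = 0
    · exact ⟨0, zero_mem 2 18, by rw [h0, val_zero], fun _ => rfl⟩
    · obtain ⟨v, hv, h1⟩ := of_block_add β hβ 18 z z.2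
      exact ⟨v, hv, h1, fun h => absurd h h0⟩
  choose vec hvS hvv hv0 using hvec
  refine of_carry (β ^ 18) (pow_ne_zero _ hβ0) _ _
    (fun a b => val β (H (c (vec a)) (e (vec b)))) ?_ ?_
  · intro a b d
    have h1 : β ^ 18 * val β (H (c (vec b)) (e (vec d))) = val β (G (c (vec b)) (e (vec d))) := by
      rw [G, val, val, lin_mulp β hβ]
      ring
    have h2 : (b : ℂ) + val β (H (c (vec a)) (e (vec b))) -
        β ^ 18 * val β (H (c (vec b)) (e (vec d))) =
        val β (vec b + H (c (vec a)) (e (vec b)) - G (c (vec b)) (e (vec d))) := by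
      rw [val_sub, val_add, hvv, h1]
    rw [h2]
    obtain ⟨-, -, h3⟩ := hc (vec b) (hvS b)
    exact block_of β hβ 18 _ (h3 _ (hc (vec a) (hvS a)).1 _ (hc (vec d) (hvS d)).2.1)
  · intro a b ha hb
    rw [hv0 a ha, hv0 b hb, hce, val_zero]

/-- **Addition on the alphabet `{0, 1}` is `18`-block parallel in base `β`, where `β` is the real
number with `β ^ 3 = β - 1`.** In particular there is a base in which addition on a binary alphabet
is block parallel. -/
theorem result : ∃ β : ℝ, β ^ 3 = β - 1 ∧ 1 < ‖(β : ℂ)‖ ∧ BlockParallel 18 (β : ℂ) {0, 1} := by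
  obtain ⟨β, hβ, h0⟩ : ∃ β ∈ Set.Icc (-2 : ℝ) (-1), β ^ 3 - β + 1 = 0 := by
    have h1 : ContinuousOn (fun x : ℝ => x ^ 3 - x + 1) (Set.Icc (-2) (-1)) := by fun_prop
    have h2 := intermediate_value_Icc (by norm_num : (-2 : ℝ) ≤ -1) h1
    obtain ⟨β, hβ, h3⟩ := h2 (show (0 : ℝ) ∈ _ by constructor <;> norm_num)
    exact ⟨β, hβ, h3⟩
  have hβ3 : β ^ 3 = β - 1 := by linarith
  have hβ1 : β < -1 := by
    rcases lt_or_eq_of_le hβ.2 with h | h
    · exact h
    · rw [h] at h0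
      norm_num at h0
  refine ⟨β, hβ3, ?_, 3, parallel (β : ℂ) (by exact_mod_cast congrArg (fun x : ℝ => (x : ℂ)) hβ3)⟩
  rw [Complex.norm_real, Real.norm_eq_abs, lt_abs]
  right
  linarith

end Pool.Agent.Results.MP_8e4c55_nt.NegativePlastic
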